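import Pool.Agent.K6.H23.KnShort

/-!
# Lattice polygons whose knot type has a shorter polygon: a concave rate function
-/

set_option autoImplicit false

namespace Pool.Agent.Results.MP_aea6d5_co.CompressedPolygons

open Filter Topology KN Set

/-- `Q 0 ⊆ Q 1 ⊆ ...` are classes of knot types, the connected sum of a polygon of `Q a` and a
polygon of `Q b` is in `Q (a + b)`, and some `Q a` contains a polygon. For instance `Q a` may be the
class of the connected sums of at most `a` knots of given types, or the knots with a given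
subadditive invariant at most `a`. -/
structure AdditiveFamily (Q : ℕ → List Dir → Prop) : Prop where
  cls : ∀ a, KClass (Q a)
  mono : ∀ a b w, a ≤ b → Q a w → Q b w
  add : ∀ (a b : ℕ) (l1 v l2 : List Dir), Facing l1 v l2 →
    Q a (l1 ++ .zp :: l2) → Q b (.zm :: v) → Q (a + b) (KN.join l1 v l2)
  ne : ∃ a w, SAP w ∧ Q a w

/-- the knot type of `w` is the knot type of a lattice polygon with at most `c` edges -/
def Short (c : ℕ) (w : List Dir) : Prop := ∃ w', SAP w' ∧ w'.length ≤ c ∧ KT (vl w') w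

/-- `log p_n / n` for `n = 2 j`, where `p_n = pq Q n` is the number of polygons of length `n`, up to
translation, of the class `Q` -/
noncomputable def rate (Q : List Dir → Prop) (j : ℕ) : ℝ := Real.log (pq Q (2 * j)) / (2 * j)

/-- First part: let `Q 0 ⊆ Q 1 ⊆ ...` be an additive family of classes of knot types.

(1) For every `x > 0` the number of polygons of length `n` in `Q ⌊x n⌋` is `exp (f (x) n + o(n))`,
`n` even, and `f` is concave and nondecreasing on `(0, ∞)`; for `x → ∞` it tends to the logarithm of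
the growth rate of the union of the classes.
(2) The limit `f₀ = f (0 +)` is the largest rate of the polygons in `Q (s_n)` for sequences
`s_n = o(n)`: it is an upper bound for all of them, and it is attained for some of them.
(3) If `P` is a class of knot types (for instance one knot type) contained in some `Q a` then its
growth rate is between the one of the unknot `U` and `exp f₀`. If `f₀` is the rate of the unknot,
`f₀ = log (gr U)`, then `p_n(P) ^ (1 / n)` converges for every such `P`, and its limit is the growth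
rate of the unknot.

Second part: the classes `Short c` of the knot types with a lattice polygon of length at most `c` are
such a family. All polygons of length `n` are in `Short n`, and every knot type `KT k` is contained in
one of the classes. So in this case `exp (f (x) n + o(n))` is the number of polygons of length `n`
whose knot type has a polygon of length at most `x n`, `f (x)` for `x ≥ 1` is the logarithm of the
growth rate of all polygons, and (3) applies to all knot types. -/
theorem result :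
    (∀ Q : ℕ → List Dir → Prop, AdditiveFamily Q → ∃ (f : ℝ → ℝ) (f₀ : ℝ),
      ((∀ x : ℝ, 0 < x → Tendsto (fun j : ℕ => rate (Q ⌊x * (2 * j)⌋₊) j) atTop (𝓝 (f x))) ∧
        ConcaveOn ℝ (Ioi 0) f ∧ MonotoneOn f (Ioi 0) ∧
        Tendsto f atTop (𝓝 (Real.log (gr fun w => ∃ a, Q a w)))) ∧
      (Tendsto f (𝓝[>] 0) (𝓝 f₀) ∧
        (∀ s : ℕ → ℕ, Tendsto (fun j : ℕ => (s j : ℝ) / j) atTop (𝓝 0) → ∀ ε : ℝ, 0 < ε →
          ∀ᶠ j : ℕ in atTop, rate (Q (s j)) j ≤ f₀ + ε) ∧
        ∃ s : ℕ → ℕ, Tendsto s atTop atTop ∧ Tendsto (fun j : ℕ => (s j : ℝ) / j) atTop (𝓝 0) ∧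
          Tendsto (fun j : ℕ => rate (Q (s j)) j) atTop (𝓝 f₀)) ∧
      ∀ P : List Dir → Prop, KClass P → (∃ w, SAP w ∧ P w) →
        (∃ a, ∀ w, SAP w → P w → Q a w) →
        Real.log (gr U) ≤ Real.log (gr P) ∧ Real.log (gr P) ≤ f₀ ∧
          (f₀ = Real.log (gr U) →
            Tendsto (fun j : ℕ => (pq P (2 * j)) ^ (1 / (2 * j : ℝ))) atTop (𝓝 (gr U)) ∧
              gr P = gr U)) ∧
    (AdditiveFamily Short ∧ (∀ w, SAP w → Short w.length w) ∧
      (∀ x : ℝ, 1 ≤ x → ∀ j : ℕ, rate (Short ⌊x * (2 * j)⌋₊) j = rate (fun _ => True) j) ∧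
      ∀ k : List V, (∃ w, SAP w ∧ KT k w) →
        KClass (KT k) ∧ ∃ a, ∀ w, SAP w → KT k w → Short a w) := by
  refine ⟨fun Q hQ => ?_, ?_, ?_, ?_, ?_⟩
  · have F : Pool.Agent.K6.H23.KF.Fam Q := ⟨hQ.cls, hQ.mono, hQ.add, hQ.ne⟩
    refine ⟨Pool.Agent.K6.H23.KF.fr Q F, Pool.Agent.K6.H23.KF.f0 Q F,
      ⟨fun x hx => Pool.Agent.K6.H23.KF.log_lim F hx, Pool.Agent.K6.H23.KF.fr_concave F,
        Pool.Agent.K6.H23.KF.fr_mono F, ?_⟩,
      ⟨Pool.Agent.K6.H23.KF.f0_lim F,
        fun s hs ε hε => Pool.Agent.K6.H23.KF.seq_up F s hs hε,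
        Pool.Agent.K6.H23.KF.seq_ex F⟩, ?_⟩
    · obtain ⟨g1, -, -⟩ := gr_bounds (Pool.Agent.K6.H23.KF.un Q)
        (Pool.Agent.K6.H23.KF.un_class F) (Pool.Agent.K6.H23.KF.un_ne F)
      rw [Metric.tendsto_atTop]
      intro ε hε
      obtain ⟨y, hy, h1⟩ := Pool.Agent.K6.H23.KF.sup_un F hε
      refine ⟨y, fun x hx => ?_⟩
      have hx0 : 0 < x := lt_of_lt_of_le hy hx
      have h2 := Pool.Agent.K6.H23.KF.fr_mono F (Set.mem_Ioi.2 hy) (Set.mem_Ioi.2 hx0) hx
      have h3 := Pool.Agent.K6.H23.KF.fr_le_un F hx0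
      have h4 : Pool.Agent.K6.H23.KF.fr Q F x ≤ Real.log (gr (Pool.Agent.K6.H23.KF.un Q)) := by
        rw [Real.le_log_iff_exp_le (by linarith)]
        exact h3
      have e : (fun w => ∃ a, Q a w) = Pool.Agent.K6.H23.KF.un Q := rfl
      rw [e, Real.dist_eq, abs_lt]
      constructor <;> linarith
    · rintro P hP hne ⟨a, ha⟩
      obtain ⟨g1, g2, -⟩ := gr_bounds P hP hne
      obtain ⟨g3, -, -⟩ := gr_bounds U (GEN.kt_class sq) ⟨sqw, c_sq.2.1, Or.inl (Same.refl _)⟩
      exact ⟨Real.log_le_log (by linarith) g2, Pool.Agent.K6.H23.KF.gr_le_f0 F P hP hne ha,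
        fun hf => Pool.Agent.K6.H23.KF.fixed_lim F hf P hP hne ha⟩
  · have F := Pool.Agent.K6.H23.KF.short_fam
    exact ⟨F.cls, F.mono, F.add, F.ne⟩
  · intro w hw
    exact Pool.Agent.K6.H23.KF.short_self hw le_rfl
  · intro x hx j
    have h1 : 2 * j ≤ ⌊x * (2 * (j : ℝ))⌋₊ := by
      apply Nat.le_floor
      push_cast
      have : (0 : ℝ) ≤ 2 * j := by positivity
      nlinarith
    have h2 : K (Short ⌊x * (2 * (j : ℝ))⌋₊) (2 * j) = K (fun _ => True) (2 * j) := by
      ext w
      rw [mem_K, mem_K]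
      constructor
      · rintro ⟨a1, a2, -⟩
        exact ⟨a1, a2, trivial⟩
      · rintro ⟨a1, a2, -⟩
        exact ⟨a1, a2, Pool.Agent.K6.H23.KF.short_self a2 (by rw [a1]; exact h1)⟩
    unfold rate pq a
    rw [h2]
  · rintro k ⟨w0, h0, h1⟩
    exact ⟨GEN.kt_class k, w0.length, Pool.Agent.K6.H23.KF.short_kt h0 h1⟩

end Pool.Agent.Results.MP_aea6d5_co.CompressedPolygons
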