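import Pool.Agent.K6.H37.KL.Cor

/-!
# Lattice knots: regularity in the length, to all orders, of the law of the knot type

Let `Q` be a class of knot types which is closed under connected sums, for instance the class of all
knot types (all polygons), or the knots whose prime summands are in a given set, or the unknot. The
law of the knot type of a uniformly random polygon of length `n` of class `Q` is a probability
measure on an infinite set, and typical knot types have exponentially small probability. We prove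
that this law is regular in `n` to all orders, in total variation; the same for the law conditioned
on any subclass `P` of `Q` (for instance a class defined by the genus, the number of prime summands
or the determinant, or a single knot type, which may depend on `n`), with constants that do not
depend on `P`, as long as the number of polygons of class `P` is at least `exp (- c n) μ ^ n`; and
the logarithm of this number is regular in `n` in the same way. The means of unbounded functions of
the knot type (genus, signature, crossing number, logarithm of the determinant) are also regular.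
-/

set_option autoImplicit false

namespace Pool.Agent.Results.MP_aea6d5_co.KnotTypeLaw

open Finset Filter Topology KN

/-- `F w` depends only on the (unoriented) knot type of the polygon `w` -/
def OfKnotType (F : List Dir → ℝ) : Prop := ∀ w w' : List Dir, SAP w → SAP w' →
  (Same (vl w) (vl w') ∨ Same (vl w) (vl w').reverse) → F w = F w'

/-- the mean of `F` over the polygons of length `n` of class `P` (over the rooted oriented polygons;
every polygon corresponds to `2 n` of them) -/
noncomputable def mean (F : List Dir → ℝ) (P : List Dir → Prop) (n : ℕ) : ℝ :=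
  (∑ w ∈ K P n, F w) / a P n

/-- the `r`-th difference, along the even numbers, of `f` at `2 k` -/
noncomputable def diff (r : ℕ) (f : ℕ → ℝ) (k : ℕ) : ℝ :=
  ∑ i ∈ range (r + 1), (-1 : ℝ) ^ i * (r.choose i : ℝ) * f (2 * k + 2 * i)

/-- the bounds for the class `P` at the length `2 k`, with the growth constant `μ`: there are polygons
of class `P` of all even lengths between `2 k` and `2 k + 2 r`, the `r`-th difference of
`log (p_m (P) / μ ^ m)` is at most `C ε ^ r` in absolute value (if `r ≥ 1`), and the `r`-th difference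
of the mean of `F` is at most `C (2 k) ^ p ε ^ r` in absolute value, at once for all functions `F` of
the knot type that are at most `m ^ p` in absolute value for all polygons of length `m`, for every
`m` (for `p = 0`: all `F` with values in `[-1, 1]`) -/
def Bounds (r p : ℕ) (C μ ε : ℝ) (P : List Dir → Prop) (k : ℕ) : Prop :=
  (∀ i : ℕ, i ≤ r → 0 < pq P (2 * k + 2 * i)) ∧
  (1 ≤ r → |diff r (fun m => Real.log (pq P m / μ ^ m)) k| ≤ C * ε ^ r) ∧
  ∀ F : List Dir → ℝ, OfKnotType F → (∀ w, SAP w → |F w| ≤ (w.length : ℝ) ^ p) →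
    |diff r (mean F P) k| ≤ C * (2 * (k : ℝ)) ^ p * ε ^ r

/-- Let `Q` be a nonempty class of knot types, `p_n (P) = pq P n` the number of the polygons of length
`n` of class `P`, and `μ = gr Q` the growth rate of `p_n (Q)`. All lengths `n = 2 k` are even.

(1) Let `Q` be closed under connected sums. Then `log (μ ^ n / p_n (Q)) / n → 0`, and for all `r, p`
there are `c > 0` and `C` such that for all large `n`, at once for all classes `P ⊆ Q` of knot types
with `p_n (P) ≥ exp (- c n) μ ^ n`, the bounds hold with `ε = √(log (μ ^ n / p_n (P)) / n)`.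

(2) Let `Q` be any class and `p_n (Q) ≤ μ ^ n exp (φ n)` for all large `n`, where `φ` is monotone,
`φ n ≥ log n`, `φ (2 n) ≤ D φ n` and `φ n / n → 0` (every class has such a `φ`). Then for all `r, p`
there are `c > 0` and `C` such that for all large `n`, at once for all classes `P ⊆ Q` of knot types
with `p_n (P) > 0` and `|log (p_n (P) / μ ^ n)| ≤ c n`, the bounds hold with
`ε = √((φ n + |log (p_n (P) / μ ^ n)|) / n)`.

(3) The class of all polygons and the unknot are closed under connected sums; a single knot type is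
a class. -/
theorem result :
    (∀ Q : List Dir → Prop, KClass Q → (∃ w, SAP w ∧ Q w) →
      (CSum Q →
        Tendsto (fun k : ℕ => Real.log (gr Q ^ (2 * k) / pq Q (2 * k)) / (2 * k)) atTop (𝓝 0) ∧
        ∀ r p : ℕ, ∃ c C : ℝ, 0 < c ∧ ∀ᶠ k : ℕ in atTop, ∀ P : List Dir → Prop, KClass P →
          (∀ w, SAP w → P w → Q w) → Real.exp (-(c * (2 * k))) * gr Q ^ (2 * k) ≤ pq P (2 * k) →
          Bounds r p C (gr Q)
            (Real.sqrt (Real.log (gr Q ^ (2 * k) / pq P (2 * k)) / (2 * k))) P k) ∧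
      (∀ φ : ℕ → ℝ, Monotone φ → (∀ n : ℕ, 2 ≤ n → Real.log n ≤ φ n) →
        (∃ D : ℝ, ∀ n : ℕ, 2 ≤ n → φ (2 * n) ≤ D * φ n) →
        Tendsto (fun n : ℕ => φ n / n) atTop (𝓝 0) →
        (∀ᶠ k : ℕ in atTop, pq Q (2 * k) ≤ gr Q ^ (2 * k) * Real.exp (φ (2 * k))) →
        ∀ r p : ℕ, ∃ c C : ℝ, 0 < c ∧ ∀ᶠ k : ℕ in atTop, ∀ P : List Dir → Prop, KClass P →
          (∀ w, SAP w → P w → Q w) → 0 < pq P (2 * k) →
          |Real.log (pq P (2 * k) / gr Q ^ (2 * k))| ≤ c * (2 * k) →
          Bounds r p C (gr Q)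
            (Real.sqrt ((φ (2 * k) + |Real.log (pq P (2 * k) / gr Q ^ (2 * k))|) / (2 * k))) P k) ∧
      ∃ φ : ℕ → ℝ, Monotone φ ∧ (∀ n : ℕ, 2 ≤ n → Real.log n ≤ φ n) ∧
        (∃ D : ℝ, ∀ n : ℕ, 2 ≤ n → φ (2 * n) ≤ D * φ n) ∧
        Tendsto (fun n : ℕ => φ n / n) atTop (𝓝 0) ∧
        ∀ᶠ k : ℕ in atTop, pq Q (2 * k) ≤ gr Q ^ (2 * k) * Real.exp (φ (2 * k))) ∧
    (KClass (fun _ => True) ∧ CSum (fun _ => True)) ∧ (∀ k : List V, KClass (KT k)) ∧
      KClass U ∧ CSum U ∧ ∃ w, SAP w ∧ U w := by
  have key : ∀ (r p k : ℕ) (C μ ε : ℝ) (P : List Dir → Prop), 1 ≤ k → 0 ≤ C → 0 ≤ ε →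
      (∀ i : ℕ, i ≤ r → 0 < pq P (2 * k + 2 * i)) →
      (1 ≤ r → |Pool.Agent.K6.H37.KL.dif r (fun m => Real.log (pq P m / μ ^ m)) k| ≤ C * ε ^ r) →
      (∀ F : List Dir → ℝ, Pool.Agent.K6.H37.KL.KInv F → (∀ w, |F w| ≤ 1) →
        |Pool.Agent.K6.H37.KL.dif r (Pool.Agent.K6.H37.KL.mean F P) k| ≤ C * ε ^ r) →
      Bounds r p (C * ((r : ℝ) + 1) ^ p) μ ε P k := by
    intro r p k C μ ε P hk hC hε h0 h1 h2
    have h3 : (1 : ℝ) ≤ ((r : ℝ) + 1) ^ p := one_le_pow₀ (by
      have : (0 : ℝ) ≤ r := Nat.cast_nonneg r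
      linarith)
    refine ⟨h0, fun hr => (h1 hr).trans ?_, fun F hF hFp => ?_⟩
    · refine mul_le_mul_of_nonneg_right ?_ (pow_nonneg hε r)
      exact le_mul_of_one_le_right hC h3
    · refine (Pool.Agent.K6.H37.KL.unb hk h2 hF hFp).trans (le_of_eq ?_)
      ring
  refine ⟨fun Q hQ hne => ⟨fun hc => ⟨Pool.Agent.K6.H37.KL.err_csum hQ hne hc, fun r p => ?_⟩,
    fun φ h1 h2 h3 h4 h5 r p => ?_, ?_⟩,
    ⟨Pool.Agent.K6.H37.KL.all_class, Pool.Agent.K6.H37.KL.all_csum⟩,
    GEN.kt_class, GEN.kt_class sq, GEN.u_csum, ⟨sqw, c_sq.2.1, Or.inl (Same.refl _)⟩⟩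
  · obtain ⟨c, C, hc0, hC, h⟩ := Pool.Agent.K6.H37.KL.law_csum hQ hne hc r
    refine ⟨c, C * ((r : ℝ) + 1) ^ p, hc0, ?_⟩
    filter_upwards [h, eventually_ge_atTop 1] with k hk hk1
    intro P hP hPQ hp
    obtain ⟨b0, b1, b2⟩ := hk P hP hPQ hp
    exact key r p k C _ _ P hk1 hC.le (Real.sqrt_nonneg _) b0 b1 b2
  · obtain ⟨c, C, hc0, hC, h⟩ := Pool.Agent.K6.H37.KL.law_phi hQ hne ⟨h1, h2, h3, h4⟩ h5 r
    refine ⟨c, C * ((r : ℝ) + 1) ^ p, hc0, ?_⟩
    filter_upwards [h, eventually_ge_atTop 1] with k hk hk1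
    intro P hP hPQ hp hpc
    obtain ⟨b0, b1, b2⟩ := hk P hP hPQ hp hpc
    exact key r p k C _ _ P hk1 hC.le (Real.sqrt_nonneg _) b0 b1 b2
  · obtain ⟨φ, R, h⟩ := Pool.Agent.N226.KZ.exists_rate hQ hne
    exact ⟨φ, R.mono, R.log, R.dbl, R.lim, h⟩

end Pool.Agent.Results.MP_aea6d5_co.KnotTypeLaw
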