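import Pool.Agent.K6.H23.KnLim

/-!
# Lattice knots: the limit points of the normalised counts, and when the asymptotic form holds
-/

set_option autoImplicit false

namespace Pool.Agent.Results.MP_aea6d5_co.LimitPoints

open Filter Topology KN Set

/-- `p_n / (n ^ (α - 3) μ ^ n)` at `n = 2 k`, where `p_n = pq Q n` is the number of polygons of
length `n` in `ℤ³` up to translation, whose knot type is in the class `Q`, and `μ = gr Q` is their
growth rate -/
noncomputable def q (Q : List Dir → Prop) (α : ℝ) (k : ℕ) : ℝ :=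
  pq Q (2 * k) / ((2 * k : ℝ) ^ (α - 3) * gr Q ^ (2 * k))

/-- the limit points in `(0, ∞)` of `p_n / (n ^ (α - 3) μ ^ n)` along the even `n` -/
def L (Q : List Dir → Prop) (α : ℝ) : Set ℝ := {A | 0 < A ∧ MapClusterPt A atTop (q Q α)}

/-- the asymptotic form of the question: `p_n / (n ^ (α - 3) μ ^ n) → A` along the even `n`, with
`A > 0` -/
def Form (Q : List Dir → Prop) (A α : ℝ) : Prop := 0 < A ∧ Tendsto (q Q α) atTop (𝓝 A)

/-- Let `Q` be a nonempty class of knot types, for instance a single knot type `K`.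

(1) For every real `α` the set `L (α)` of the limit points in `(0, ∞)` of
`p_n / (n ^ (α - 3) μ ^ n)` is an interval (possibly empty, or one point); it is empty if and only if
the sequence tends to `0` or to `∞`.
(2) The asymptotic form with constants `A, α` holds if and only if `A` is a limit point near which
there are only countably many limit points.
(3) The asymptotic form holds for some `A > 0` and `α` if and only if for some `α` the set `L (α)` is
nonempty and countable.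
(4) If `L (α₁)` and `L (α₂)` are not empty and `α₁ < α < α₂` then `L (α) = (0, ∞)`.
(5) So if no asymptotic form holds, then: for every `α` the sequence tends to `0` or to `∞`; or
exactly one `L (α)` is not empty, and it contains an interval of positive length; or
`L (α) = (0, ∞)` for all the `α` of an open interval.
(6) A single knot type is such a class. -/
theorem result :
    (∀ Q : List Dir → Prop, KClass Q → (∃ w, SAP w ∧ Q w) →
      (∀ α : ℝ, (L Q α).OrdConnected ∧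
        (L Q α = ∅ ↔ Tendsto (q Q α) atTop (𝓝 0) ∨ Tendsto (q Q α) atTop atTop)) ∧
      (∀ A α : ℝ, Form Q A α ↔
        A ∈ L Q α ∧ ∃ δ : ℝ, 0 < δ ∧ (L Q α ∩ Ioo (A - δ) (A + δ)).Countable) ∧
      ((∃ A α : ℝ, Form Q A α) ↔ ∃ α : ℝ, (L Q α).Nonempty ∧ (L Q α).Countable) ∧
      (∀ α₁ α α₂ : ℝ, α₁ < α → α < α₂ → (L Q α₁).Nonempty → (L Q α₂).Nonempty →
        L Q α = Ioi 0) ∧
      ((¬ ∃ A α : ℝ, Form Q A α) →
        (∀ α : ℝ, Tendsto (q Q α) atTop (𝓝 0) ∨ Tendsto (q Q α) atTop atTop) ∨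
        (∃ α : ℝ, (∀ α' : ℝ, (L Q α').Nonempty → α' = α) ∧
          ∃ x y : ℝ, 0 < x ∧ x < y ∧ Icc x y ⊆ L Q α) ∨
        ∃ x y : ℝ, x < y ∧ ∀ α ∈ Ioo x y, L Q α = Ioi 0)) ∧
    (∀ k : List V, KClass (KT k)) ∧ KClass U ∧ ∃ w, SAP w ∧ U w := by
  refine ⟨fun Q hQ hne => ?_, GEN.kt_class, GEN.kt_class sq,
    ⟨sqw, c_sq.2.1, Or.inl (Same.refl _)⟩⟩
  obtain ⟨h1, -, -⟩ := gr_bounds Q hQ hne
  have hμ : 0 < gr Q := by linarith
  have hqy : ∀ α : ℝ, q Q α = fun k : ℕ => TH966.KS.yq Q k / (2 * k : ℝ) ^ (α - 3) := by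
    intro α
    funext k
    exact TH966.KS.yq_form Q (α - 3) k
  have hnj : ∀ α : ℝ, Pool.Agent.K6.H23.KL.Nj (q Q α) := by
    intro α
    rw [hqy α]
    exact Pool.Agent.K6.H23.KL.nj_form Q hQ hne (α - 3)
  have h0 : ∀ α : ℝ, ∀ᶠ k : ℕ in atTop, 0 ≤ q Q α k := by
    intro α
    refine Eventually.of_forall fun k => ?_
    rw [hqy α]
    exact div_nonneg (TH966.KS.yq_nonneg Q hμ.le k) (by positivity)
  have hL : ∀ α : ℝ, L Q α = Pool.Agent.K6.H23.KL.P (q Q α) := fun α => rfl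
  have p1 : ∀ α : ℝ, (L Q α).OrdConnected := fun α => Pool.Agent.K6.H23.KL.ord (hnj α)
  have p2 : ∀ α : ℝ, (L Q α = ∅ ↔ Tendsto (q Q α) atTop (𝓝 0) ∨ Tendsto (q Q α) atTop atTop) :=
    fun α => Pool.Agent.K6.H23.KL.empty_iff (hnj α) (h0 α)
  have p3 : ∀ A α : ℝ, Form Q A α ↔
      A ∈ L Q α ∧ ∃ δ : ℝ, 0 < δ ∧ (L Q α ∩ Ioo (A - δ) (A + δ)).Countable := by
    intro A α
    constructor
    · rintro ⟨hA, h⟩
      exact (Pool.Agent.K6.H23.KL.iso (hnj α) hA).1 h
    · intro h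
      have hA : 0 < A := h.1.1
      exact ⟨hA, (Pool.Agent.K6.H23.KL.iso (hnj α) hA).2 h⟩
  have p4 : (∃ A α : ℝ, Form Q A α) ↔ ∃ α : ℝ, (L Q α).Nonempty ∧ (L Q α).Countable := by
    constructor
    · rintro ⟨A, α, hA, h⟩
      exact ⟨α, Pool.Agent.K6.H23.KL.countable_of_conv hA h⟩
    · rintro ⟨α, h2, h3⟩
      obtain ⟨A, hA, h⟩ := Pool.Agent.K6.H23.KL.conv_of_countable (hnj α) h2 h3
      exact ⟨A, α, hA, h⟩
  have p5 : ∀ α₁ α α₂ : ℝ, α₁ < α → α < α₂ → (L Q α₁).Nonempty → (L Q α₂).Nonempty →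
      L Q α = Ioi 0 := by
    intro α₁ α α₂ h2 h3 h4 h5
    have h6 := hnj α
    rw [hL] at h4 h5 ⊢
    rw [hqy] at h4 h5 h6 ⊢
    exact Pool.Agent.K6.H23.KL.between
      (Eventually.of_forall fun k => TH966.KS.yq_nonneg Q hμ.le k) h2 h3 h6 h4 h5
  refine ⟨fun α => ⟨p1 α, p2 α⟩, p3, p4, p5, fun hno => ?_⟩
  by_cases hS : ∀ α : ℝ, L Q α = ∅
  · exact Or.inl fun α => (p2 α).1 (hS α)
  right
  push Not at hS
  obtain ⟨α, hα⟩ := hS
  by_cases hu : ∀ α' : ℝ, (L Q α').Nonempty → α' = α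
  · left
    refine ⟨α, hu, ?_⟩
    have hnc : ¬ (L Q α).Countable := fun hc => hno (p4.2 ⟨α, hα, hc⟩)
    obtain ⟨x, hx⟩ := hα
    have hex : ∃ y ∈ L Q α, y ≠ x := by
      by_contra hcon
      push Not at hcon
      exact hnc ((Set.countable_singleton x).mono fun y hy => hcon y hy)
    obtain ⟨y, hy, hne'⟩ := hex
    rcases lt_or_gt_of_ne hne' with h2 | h2
    · exact ⟨y, x, hy.1, h2, (p1 α).out hy hx⟩
    · exact ⟨x, y, hx.1, h2, (p1 α).out hx hy⟩
  · right
    push Not at hu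
    obtain ⟨α', hα', hne'⟩ := hu
    rcases lt_or_gt_of_ne hne' with h2 | h2
    · exact ⟨α', α, h2, fun β hβ => p5 α' β α hβ.1 hβ.2 hα' hα⟩
    · exact ⟨α, α', h2, fun β hβ => p5 α β α' hβ.1 hβ.2 hα hα'⟩

end Pool.Agent.Results.MP_aea6d5_co.LimitPoints
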