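import Pool.Agent.K6.H37.MS.Exp

/-!
# Connected sums of knots and the surface of the unknotted polygons

`sf R w` is the surface of the neighbourhood of radius `R` of a polygon `w` in `ℤ³`: the number of the
lattice points whose distance from the set of the vertices is larger than `R` and at most `R + 1`
(see `Pool.Agent.K6.H37.MS.mem_shell`).
-/

set_option autoImplicit false

namespace Pool.Agent.Results.MP_aea6d5_co.ManySummands

open Finset Filter Topology KN Pool.Agent.K6.H37.MS

/-- (1) For every finite family of knots with non-commutative knot groups there are `R, k, M, D, n₀`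
such that for every `N ≥ 1` and every connected sum `l` of `N` knots of the family (with
repetitions) there is an even `m ≤ D N` such that for all `n ≥ n₀` the sum of
`max (sf R w - k N, 0) ^ N` over the unknotted polygons `w` of length `n` is at most `(M N) ^ N`
times the number of the polygons of length `n + m` of type `l`.
(2) Let `Q` be a class of knot types closed under connected sums that contains a knot whose group
is not commutative, `μ_Q` its growth rate and `μ_0` the one of the unknot. For some `R` and `c > 0`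
and all large even `n` the sum of `exp (c * sf R w)` over the unknotted polygons `w` of length `n` is
at most `μ_Q ^ n`. Hence `μ_Q ≥ μ_0 * exp (c * ε)` if the mean of `sf R w` is at least `ε * n` for
infinitely many even `n`; and either `μ_0 < μ_Q`, or for every `ε > 0` all but an exponentially small
proportion of the unknotted polygons of length `n` has `sf R w < ε * n`. For all large even `n` there
are at least `exp (c * n ^ (2 / 3))` times as many polygons of class `Q` as unknotted ones. If the
unknotted polygons have an asymptotic form `A * n ^ (α - 3) * μ_0 ^ n`, then `μ_0 < μ_Q`.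
(3) `sf R w` is at least `n ^ (2 / 3)` and at least the number of the points of each of the three
projections of the vertices to the coordinate planes.
(4) For every polygon `w0` the class `Gen w0` is the smallest one that is closed under connected
sums and contains the type of `w0`; polygons with non-commutative group exist (trefoil). -/
theorem result :
    (∀ (ι : Type) [Finite ι] (κ : ι → List V), (∀ i, NCG (κ i)) →
      (∀ i, ∃ w, SAP w ∧ Same (vl w) (κ i)) →
      ∃ R k M D n0 : ℕ, ∀ N : ℕ, 1 ≤ N → ∀ (s : ℕ → ι) (l : List V),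
        Sums (fun i => κ (s i)) N l → ∃ m : ℕ, m ≤ D * N ∧ m % 2 = 0 ∧ ∀ n : ℕ, n0 ≤ n →
          ∑ w ∈ K U n, (sf R w - k * N) ^ N ≤ (M * N) ^ N * a (KT l) (n + m)) ∧
    (∀ (Q : List Dir → Prop) (w0 : List Dir), KClass Q → CSum Q → SAP w0 → Q w0 →
      NCG (vl w0) → ∃ (R : ℕ) (c : ℝ), 0 < c ∧
        (∀ᶠ j : ℕ in atTop,
          ∑ w ∈ K U (2 * j), Real.exp (c * sf R w) ≤ gr Q ^ (2 * j)) ∧
        (∀ ε : ℝ, (∃ᶠ j : ℕ in atTop,
          ε * (2 * j) * a U (2 * j) ≤ ∑ w ∈ K U (2 * j), (sf R w : ℝ)) →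
          gr U * Real.exp (c * ε) ≤ gr Q) ∧
        (gr U < gr Q ∨ ∀ ε : ℝ, 0 < ε → ∀ᶠ j : ℕ in atTop,
          (Set.ncard {w | w ∈ K U (2 * j) ∧ ε * (2 * j) ≤ sf R w} : ℝ) ≤
            Real.exp (-(c * ε / 2 * (2 * j))) * a U (2 * j)) ∧
        (∀ᶠ j : ℕ in atTop,
          Real.exp (c * (2 * j : ℝ) ^ (2 / 3 : ℝ)) * pq U (2 * j) ≤ pq Q (2 * j)) ∧
        ((∃ A α : ℝ, 0 < A ∧ Tendsto (fun j : ℕ => pq U (2 * j) /
          ((2 * j : ℝ) ^ (α - 3) * gr U ^ (2 * j))) atTop (𝓝 A)) → gr U < gr Q)) ∧
    (∀ (R : ℕ) (w : List Dir), SAP w → (w.length : ℝ) ^ (2 / 3 : ℝ) ≤ sf R w ∧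
      ((path w).toFinset.image (fun p => (p.2.1, p.2.2))).card ≤ sf R w ∧
      ((path w).toFinset.image (fun p => (p.1, p.2.2))).card ≤ sf R w ∧
      ((path w).toFinset.image (fun p => (p.1, p.2.1))).card ≤ sf R w) ∧
    (∀ w0, KClass (Gen w0) ∧ CSum (Gen w0) ∧ Gen w0 w0 ∧
      ∀ Q : List Dir → Prop, KClass Q → CSum Q → Q w0 → ∀ w, Gen w0 w → Q w) ∧
    ∃ w0, SAP w0 ∧ NCG (vl w0) := by
  refine ⟨fun ι _ κ hκ hex => ?_, fun Q w0 hQ hc h0 hq hn => ?_,
    fun R w hw => ⟨sf_lower R hw, sf_proj R w⟩,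
    fun w0 => ⟨gen_class w0, gen_csum w0, gen_self w0, fun Q hQ hc hq w hw => hw Q hQ hc hq⟩,
    ⟨.zm :: v0, ⟨by decide, by decide +kernel, by decide +kernel⟩, e_tre⟩⟩
  · obtain ⟨R, k, M, D, n0, -, -, h⟩ := fam_w κ hκ hex
    exact ⟨R, k, M, D, n0, h⟩
  · obtain ⟨c1, hc1, h1⟩ := class_lower hQ hc h0 hq hn
    obtain ⟨R, c2, hc2, h2⟩ := class_exp hQ hc h0 hq hn
    have hmin : 0 < min c1 c2 := lt_min hc1 hc2
    have h3 : ∀ᶠ j : ℕ in atTop,
        ∑ w ∈ K U (2 * j), Real.exp (min c1 c2 * sf R w) ≤ gr Q ^ (2 * j) := by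
      filter_upwards [h2] with j hj
      refine (Finset.sum_le_sum fun w _ => ?_).trans hj
      apply Real.exp_le_exp.2
      exact mul_le_mul_of_nonneg_right (min_le_right _ _) (Nat.cast_nonneg _)
    refine ⟨R, min c1 c2, hmin, h3, fun ε hε => class_mean hQ ⟨w0, h0, hq⟩ hmin h3 hε,
      ?_, ?_, ?_⟩
    · refine (class_dich hQ ⟨w0, h0, hq⟩ hmin h3).imp id fun h ε hε => ?_
      filter_upwards [h ε hε] with j hj
      refine le_trans (le_of_eq ?_) hj
      rw [← Set.ncard_coe_finset, Finset.coe_filter]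
    · filter_upwards [h1] with j hj
      refine le_trans (mul_le_mul_of_nonneg_right (Real.exp_le_exp.2 ?_) (GEN.pn_nonneg _ _)) hj
      exact mul_le_mul_of_nonneg_right (min_le_left c1 c2) (by positivity)
    · rintro ⟨A, α, hA, hF⟩
      exact class_form hQ hc h0 hq hn hA hF

end Pool.Agent.Results.MP_aea6d5_co.ManySummands
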